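import Pool.Agent.Helper3.ND.Basic

/-! Integers with too many odd steps among the first `i`. -/

namespace Pool.Agent.Helper3.ND

theorem od_succ_last (j : ℕ) (n : ℤ) : od (j + 1) n = od j n + (T^[j] n % 2).toNat := by
  rw [od_add j 1 n]
  simp [od]

/-- generating function of the parity counts -/
theorem gen (l : ℝ) (j : ℕ) : ∑ r ∈ Finset.range (2 ^ j), l ^ od j (r : ℤ) = (1 + l) ^ j := by
  induction j with
  | zero => simp [od]
  | succ j ih =>
    have e : 2 ^ (j + 1) = 2 ^ j + 2 ^ j := by ring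
    rw [e, Finset.sum_range_add, ← Finset.sum_add_distrib, pow_succ, ← ih, Finset.sum_mul]
    apply Finset.sum_congr rfl
    intro r _
    have h1 := shift j (r : ℤ) 1
    have e2 : (((2 ^ j + r : ℕ)) : ℤ) = (r : ℤ) + 2 ^ j * 1 := by push_cast; ring
    rw [e2, od_succ_last, od_succ_last, h1.1, h1.2]
    have h3 : (3 : ℤ) ^ od j (r : ℤ) % 2 = 1 := by
      have : Odd ((3 : ℤ) ^ od j (r : ℤ)) := Odd.pow (by decide)
      exact Int.odd_iff.mp this
    rcases par_cases (T^[j] (r : ℤ)) with h | h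
    · have h4 : (T^[j] (r : ℤ) + 3 ^ od j (r : ℤ) * 1) % 2 = 1 := by omega
      rw [h, h4]
      simp only [Int.toNat_zero, Int.toNat_one, add_zero, pow_succ]
      ring
    · have h4 : (T^[j] (r : ℤ) + 3 ^ od j (r : ℤ) * 1) % 2 = 0 := by omega
      rw [h, h4]
      simp only [Int.toNat_zero, Int.toNat_one, add_zero, pow_succ]
      ring

open Classical in
/-- integers of size at most `2 ^ i` with more than `5 / 8` odd steps among the first `i` -/
noncomputable def E (i : ℕ) : Finset ℤ :=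
  (Finset.Icc (-(2 ^ i : ℤ)) (2 ^ i)).filter (fun n => 5 * i < 8 * od i n)

theorem od_emod (i : ℕ) (n : ℤ) : od i (n % 2 ^ i) = od i n := by
  have h := (shift i (n % 2 ^ i) (n / 2 ^ i)).1
  rw [Int.emod_add_mul_ediv] at h
  exact h.symm

theorem card_E_le (i : ℕ) : (E i).card ≤ 3 * ((Finset.range (2 ^ i)).filter (fun r : ℕ => 5 * i < 8 * od i (r : ℤ))).card := by
  classical
  have hpos : (0 : ℤ) < 2 ^ i := by positivity
  apply Finset.card_le_mul_card_image_of_maps_to (f := fun n : ℤ => (n % 2 ^ i).toNat)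
  · intro n hn
    simp only [E, Finset.mem_filter] at hn
    rw [Finset.mem_filter, Finset.mem_range]
    have h0 := Int.emod_nonneg n hpos.ne'
    have h1 := Int.emod_lt_of_pos n hpos
    have h2 : (((n % 2 ^ i).toNat : ℕ) : ℤ) = n % 2 ^ i := Int.toNat_of_nonneg h0
    refine ⟨?_, ?_⟩
    · have : (((n % 2 ^ i).toNat : ℕ) : ℤ) < 2 ^ i := by rw [h2]; exact h1
      exact_mod_cast this
    · rw [h2, od_emod]; exact hn.2
  · intro r _
    -- the fibre lies in three points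
    have hsub : (E i).filter (fun n => (n % 2 ^ i).toNat = r) ⊆
        {(r : ℤ) - 2 ^ i, (r : ℤ), (r : ℤ) + 2 ^ i} := by
      intro n hn
      simp only [E, Finset.mem_filter, Finset.mem_Icc] at hn
      obtain ⟨⟨⟨h1, h2⟩, _⟩, h3⟩ := hn
      have h0 := Int.emod_nonneg n hpos.ne'
      have h4 : (r : ℤ) = n % 2 ^ i := by rw [← h3]; exact Int.toNat_of_nonneg h0
      have h5 := Int.emod_add_mul_ediv n (2 ^ i)
      have h6 := Int.emod_lt_of_pos n hpos
      have h7 : -1 ≤ n / 2 ^ i := by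
        rw [Int.le_ediv_iff_mul_le hpos]; linarith
      have h8 : n / 2 ^ i ≤ 1 := by
        have : n / 2 ^ i < 2 := by
          rw [Int.ediv_lt_iff_lt_mul hpos]; linarith
        omega
      simp only [Finset.mem_insert, Finset.mem_singleton]
      have h9 : n / 2 ^ i = -1 ∨ n / 2 ^ i = 0 ∨ n / 2 ^ i = 1 := by omega
      rcases h9 with h9 | h9 | h9
      · left; rw [h9] at h5; linarith
      · right; left; rw [h9] at h5; linarith
      · right; right; rw [h9] at h5; linarith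
    exact le_trans (Finset.card_le_card hsub) Finset.card_le_three

/-- `μ = (5/3)^(1/8)` -/
noncomputable def mu : ℝ := (5 / 3 : ℝ) ^ (1 / 8 : ℝ)

theorem mu_pos : 0 < mu := Real.rpow_pos_of_pos (by norm_num) _

theorem one_le_mu : 1 ≤ mu := Real.one_le_rpow (by norm_num) (by norm_num)

theorem mu_pow : mu ^ 8 = 5 / 3 := by
  unfold mu
  rw [← Real.rpow_natCast, ← Real.rpow_mul (by norm_num)]
  norm_num

/-- `η = 2^(-1/22)` -/
noncomputable def eta : ℝ := (2 : ℝ) ^ (-(1 / 22) : ℝ)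

theorem eta_pos : 0 < eta := Real.rpow_pos_of_pos (by norm_num) _

theorem eta_pow : eta ^ 22 = 1 / 2 := by
  unfold eta
  rw [← Real.rpow_natCast, ← Real.rpow_mul (by norm_num)]
  norm_num

theorem eta_le : eta ≤ 32 / 33 := by
  by_contra h
  push Not at h
  have h1 : (32 / 33 : ℝ) ^ 22 < eta ^ 22 := pow_lt_pow_left₀ h (by norm_num) (by norm_num)
  rw [eta_pow] at h1
  norm_num at h1

theorem kappa_le : 8 / 3 / mu ^ 5 ≤ 2 * eta := by
  have hm : 0 < mu ^ 5 := pow_pos mu_pos 5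
  have h0 : 0 ≤ 8 / 3 / mu ^ 5 := by positivity
  have h1 : (8 / 3 / mu ^ 5) ^ 88 ≤ (2 * eta) ^ 88 := by
    have e1 : (8 / 3 / mu ^ 5) ^ 88 = (8 / 3) ^ 88 / (5 / 3) ^ 55 := by
      rw [div_pow, ← pow_mul, ← mu_pow, ← pow_mul]
    have e2 : (2 * eta) ^ 88 = 2 ^ 88 * (1 / 2) ^ 4 := by
      rw [mul_pow, ← eta_pow, ← pow_mul]
    rw [e1, e2, div_le_iff₀ (by positivity)]
    norm_num
  exact le_of_pow_le_pow_left₀ (by norm_num) (by have := eta_pos; positivity) h1

theorem card_E (i : ℕ) : ((E i).card : ℝ) ≤ 3 * (2 ^ i * eta ^ i) := by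
  classical
  have h1 : (((Finset.range (2 ^ i)).filter (fun r : ℕ => 5 * i < 8 * od i (r : ℤ))).card : ℝ) *
      mu ^ (5 * i) ≤ (1 + 5 / 3) ^ i := by
    rw [← gen (5 / 3) i]
    calc (((Finset.range (2 ^ i)).filter (fun r : ℕ => 5 * i < 8 * od i (r : ℤ))).card : ℝ) * mu ^ (5 * i)
        = ∑ r ∈ (Finset.range (2 ^ i)).filter (fun r : ℕ => 5 * i < 8 * od i (r : ℤ)), mu ^ (5 * i) := by
          rw [Finset.sum_const, nsmul_eq_mul]
      _ ≤ ∑ r ∈ (Finset.range (2 ^ i)).filter (fun r : ℕ => 5 * i < 8 * od i (r : ℤ)),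
            (5 / 3 : ℝ) ^ od i (r : ℤ) := by
          apply Finset.sum_le_sum
          intro r hr
          rw [Finset.mem_filter] at hr
          rw [← mu_pow, ← pow_mul]
          exact pow_le_pow_right₀ one_le_mu hr.2.le
      _ ≤ ∑ r ∈ Finset.range (2 ^ i), (5 / 3 : ℝ) ^ od i (r : ℤ) :=
          Finset.sum_le_sum_of_subset_of_nonneg (Finset.filter_subset _ _) (fun _ _ _ => by positivity)
  have h2 : ((E i).card : ℝ) ≤ 3 * (((Finset.range (2 ^ i)).filter
      (fun r : ℕ => 5 * i < 8 * od i (r : ℤ))).card : ℝ) := by exact_mod_cast card_E_le i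
  have hm : 0 < mu ^ (5 * i) := pow_pos mu_pos _
  have h3 : (((Finset.range (2 ^ i)).filter (fun r : ℕ => 5 * i < 8 * od i (r : ℤ))).card : ℝ) ≤
      (2 * eta) ^ i := by
    calc _ ≤ (1 + 5 / 3) ^ i / mu ^ (5 * i) := by rw [le_div_iff₀ hm]; exact h1
      _ = (8 / 3 / mu ^ 5) ^ i := by rw [div_pow, ← pow_mul]; norm_num
      _ ≤ _ := pow_le_pow_left₀ (by have := pow_pos mu_pos 5; positivity) kappa_le i
  rw [mul_pow] at h3
  linarith

/-- few odd steps force descent -/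
theorem descent {i : ℕ} {n : ℤ} (hn : |n| ≤ 2 ^ i) (h : 8 * od i n ≤ 5 * i) {j : ℕ}
    (hj : 256 * 243 ^ i ≤ 256 ^ j) : |T^[i] n| ≤ 2 ^ j := by
  have h1 := affine i n
  have h2 := cc_le i n
  have h3 := cc_nonneg i n
  have hp : (0 : ℤ) < 2 ^ i := by positivity
  have hq : (0 : ℤ) < 3 ^ od i n := by positivity
  have h4 : 2 ^ i * |T^[i] n| ≤ 2 ^ i * (2 * 3 ^ od i n) := by
    have h5 : |2 ^ i * T^[i] n| = 2 ^ i * |T^[i] n| := by rw [abs_mul, abs_of_pos hp]
    rw [← h5, h1]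
    calc |3 ^ od i n * n + cc i n| ≤ |3 ^ od i n * n| + |cc i n| := abs_add_le _ _
      _ = 3 ^ od i n * |n| + cc i n := by rw [abs_mul, abs_of_pos hq, abs_of_nonneg h3]
      _ ≤ 3 ^ od i n * 2 ^ i + 3 ^ od i n * 2 ^ i := by
          have := mul_le_mul_of_nonneg_left hn hq.le
          linarith
      _ = _ := by ring
  have h6 : |T^[i] n| ≤ 2 * 3 ^ od i n := le_of_mul_le_mul_left h4 hp
  have h7 : 2 * 3 ^ od i n ≤ 2 ^ j := by
    have h8 : (2 * 3 ^ od i n) ^ 8 ≤ (2 ^ j) ^ 8 := by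
      calc (2 * 3 ^ od i n) ^ 8 = 256 * 3 ^ (8 * od i n) := by rw [mul_pow, ← pow_mul, mul_comm (od i n) 8]; norm_num
        _ ≤ 256 * 3 ^ (5 * i) := by gcongr; norm_num
        _ = 256 * 243 ^ i := by rw [pow_mul]; norm_num
        _ ≤ 256 ^ j := hj
        _ = (2 ^ j) ^ 8 := by rw [← pow_mul, mul_comm j 8, pow_mul]; norm_num
    exact le_of_pow_le_pow_left₀ (by norm_num) (by positivity) h8
  refine le_trans h6 ?_
  exact_mod_cast h7

end Pool.Agent.Helper3.ND
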