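import Mathlib

/-! The accelerated `3x+1` map on the integers: parity counts and the affine formula for iterates. -/

namespace Pool.Agent.Helper3.ND

/-- accelerated `3x+1` map on `ℤ` -/
def T (n : ℤ) : ℤ := if n % 2 = 0 then n / 2 else (3 * n + 1) / 2

/-- number of odd elements among the first `j` iterates -/
def od : ℕ → ℤ → ℕ
  | 0, _ => 0
  | j + 1, n => od j (T n) + (n % 2).toNat

/-- the constant term of the affine formula -/
def cc : ℕ → ℤ → ℤ
  | 0, _ => 0
  | j + 1, n => 2 * cc j (T n) + (n % 2) * 3 ^ od j (T n)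

theorem T_even {n : ℤ} (h : n % 2 = 0) : 2 * T n = n := by
  unfold T
  rw [if_pos h]
  omega

theorem T_odd {n : ℤ} (h : n % 2 = 1) : 2 * T n = 3 * n + 1 := by
  unfold T
  rw [if_neg (by omega)]
  omega

theorem od_succ_even {n : ℤ} (h : n % 2 = 0) (j : ℕ) : od (j + 1) n = od j (T n) := by
  simp [od, h]

theorem od_succ_odd {n : ℤ} (h : n % 2 = 1) (j : ℕ) : od (j + 1) n = od j (T n) + 1 := by
  simp [od, h]

theorem cc_succ_even {n : ℤ} (h : n % 2 = 0) (j : ℕ) : cc (j + 1) n = 2 * cc j (T n) := by
  simp [cc, h]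

theorem cc_succ_odd {n : ℤ} (h : n % 2 = 1) (j : ℕ) :
    cc (j + 1) n = 2 * cc j (T n) + 3 ^ od j (T n) := by
  simp [cc, h]

theorem par_cases (n : ℤ) : n % 2 = 0 ∨ n % 2 = 1 := by omega

theorem od_le (j : ℕ) : ∀ n : ℤ, od j n ≤ j := by
  induction j with
  | zero => intro n; simp [od]
  | succ j ih =>
    intro n
    rcases par_cases n with h | h
    · rw [od_succ_even h]; have := ih (T n); omega
    · rw [od_succ_odd h]; have := ih (T n); omega

theorem cc_nonneg (j : ℕ) : ∀ n : ℤ, 0 ≤ cc j n := by
  induction j with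
  | zero => intro n; simp [cc]
  | succ j ih =>
    intro n
    have h1 := ih (T n)
    rcases par_cases n with h | h
    · rw [cc_succ_even h]; omega
    · rw [cc_succ_odd h]; positivity

theorem affine (j : ℕ) : ∀ n : ℤ, 2 ^ j * T^[j] n = 3 ^ od j n * n + cc j n := by
  induction j with
  | zero => intro n; simp [od, cc]
  | succ j ih =>
    intro n
    rw [Function.iterate_succ_apply, pow_succ]
    have h1 := ih (T n)
    rcases par_cases n with h | h
    · rw [od_succ_even h, cc_succ_even h]
      have h2 := T_even h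
      calc 2 ^ j * 2 * T^[j] (T n) = 2 * (2 ^ j * T^[j] (T n)) := by ring
        _ = 3 ^ od j (T n) * (2 * T n) + 2 * cc j (T n) := by rw [h1]; ring
        _ = _ := by rw [h2]
    · rw [od_succ_odd h, cc_succ_odd h]
      have h2 := T_odd h
      calc 2 ^ j * 2 * T^[j] (T n) = 2 * (2 ^ j * T^[j] (T n)) := by ring
        _ = 3 ^ od j (T n) * (2 * T n) + 2 * cc j (T n) := by rw [h1]; ring
        _ = _ := by rw [h2]; ring

theorem od_add (i j : ℕ) : ∀ n : ℤ, od (i + j) n = od i n + od j (T^[i] n) := by
  induction i with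
  | zero => intro n; simp [od]
  | succ i ih =>
    intro n
    rw [Function.iterate_succ_apply]
    have e : i + 1 + j = (i + j) + 1 := by ring
    rw [e]
    have h1 := ih (T n)
    rcases par_cases n with h | h
    · rw [od_succ_even h, od_succ_even h, h1]
    · rw [od_succ_odd h, od_succ_odd h, h1]; ring

/-- the first `u` parities depend only on the residue modulo `2 ^ u` -/
theorem shift (u : ℕ) : ∀ n m : ℤ, od u (n + 2 ^ u * m) = od u n ∧
    T^[u] (n + 2 ^ u * m) = T^[u] n + 3 ^ od u n * m := by
  induction u with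
  | zero => intro n m; simp [od]
  | succ u ih =>
    intro n m
    rw [Function.iterate_succ_apply, Function.iterate_succ_apply]
    have e : (2 : ℤ) ^ (u + 1) * m = 2 * (2 ^ u * m) := by ring
    rw [e]
    rcases par_cases n with h | h
    · have h' : (n + 2 * (2 ^ u * m)) % 2 = 0 := by omega
      have h2 : T (n + 2 * (2 ^ u * m)) = T n + 2 ^ u * m := by
        have a1 := T_even h
        have a2 := T_even h'
        omega
      rw [od_succ_even h, od_succ_even h', h2]
      exact ih (T n) m
    · have h' : (n + 2 * (2 ^ u * m)) % 2 = 1 := by omega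
      have h2 : T (n + 2 * (2 ^ u * m)) = T n + 2 ^ u * (3 * m) := by
        have a1 := T_odd h
        have a2 := T_odd h'
        have a3 : (2 : ℤ) ^ u * (3 * m) = 3 * (2 ^ u * m) := by ring
        omega
      rw [od_succ_odd h, od_succ_odd h', h2]
      obtain ⟨b1, b2⟩ := ih (T n) (3 * m)
      refine ⟨by rw [b1], ?_⟩
      rw [b2, pow_succ]
      ring

theorem cc_le (j : ℕ) : ∀ n : ℤ, cc j n ≤ 3 ^ od j n * 2 ^ j := by
  induction j with
  | zero => intro n; simp [od, cc]
  | succ j ih =>
    intro n
    have h1 := ih (T n)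
    have h3 : (0 : ℤ) < 3 ^ od j (T n) := by positivity
    have h4 : (1 : ℤ) ≤ 2 ^ j := one_le_pow₀ (by norm_num)
    rcases par_cases n with h | h
    · rw [cc_succ_even h, od_succ_even h, pow_succ]
      nlinarith
    · rw [cc_succ_odd h, od_succ_odd h, pow_succ, pow_succ]
      nlinarith

end Pool.Agent.Helper3.ND
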