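import Pool.Agent.Helper3.ND.Flat

/-! The number of integers with a given first passage location. -/

namespace Pool.Agent.Helper3.ND

open Classical in
/-- first passage time, `0` if there is none -/
noncomputable def tt (y : ℤ) (n : ℤ) : ℕ := if h : ∃ t, FP y t n then Nat.find h else 0

theorem FP.unique {y : ℤ} {s t : ℕ} {n : ℤ} (h : FP y s n) (h' : FP y t n) : s = t := by
  rcases lt_trichotomy s t with hlt | heq | hgt
  · exact absurd h.2 (not_le.mpr (h'.1 s hlt))
  · exact heq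
  · exact absurd h'.2 (not_le.mpr (h.1 t hgt))

theorem tt_eq {y : ℤ} {t : ℕ} {n : ℤ} (h : FP y t n) : tt y n = t := by
  classical
  unfold tt
  rw [dif_pos ⟨t, h⟩]
  exact FP.unique (Nat.find_spec (⟨t, h⟩ : ∃ t, FP y t n)) h

theorem exists_L (A : ℕ) : ∃ L : ℕ, L * 2 ^ L < 3 ^ A ∧ 3 ^ A ≤ (L + 1) * 2 ^ (L + 1) := by
  classical
  have hex : ∃ M : ℕ, 3 ^ A ≤ M * 2 ^ M := ⟨3 ^ A, Nat.le_mul_of_pos_right _ (by positivity)⟩
  have h1 := Nat.find_spec hex
  have h2 : ∀ m < Nat.find hex, ¬ 3 ^ A ≤ m * 2 ^ m := fun m hm => Nat.find_min hex hm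
  have h3 : Nat.find hex ≠ 0 := by
    intro h0
    rw [h0] at h1
    have : 0 < 3 ^ A := by positivity
    omega
  obtain ⟨L, hL⟩ := Nat.exists_eq_succ_of_ne_zero h3
  refine ⟨L, ?_, ?_⟩
  · have := h2 L (by omega)
    omega
  · rw [hL] at h1
    exact h1

theorem L_le {y : ℤ} (hy : 0 < y) {t L : ℕ} {n : ℤ} (h : FP y t n) (ht : (t : ℤ) ≤ y)
    (hL : L * 2 ^ L < 3 ^ od t n) : L ≤ t := by
  by_contra hlt
  push Not at hlt
  have h1 := h.pow_le hy ht
  have h2 : (2 : ℤ) * 3 ^ od t n ≤ 3 * 2 ^ t := h1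
  have h3 : 2 * 3 ^ od t n ≤ 3 * 2 ^ t := by exact_mod_cast h2
  have h4 : 2 ^ (t + 1) ≤ 2 ^ L := Nat.pow_le_pow_right (by norm_num) hlt
  have h5 : 2 ^ L ≤ L * 2 ^ L := Nat.le_mul_of_pos_left _ (by omega)
  rw [pow_succ] at h4
  have h6 : 0 < 2 ^ t := by positivity
  omega

open Classical in
/-- integers of size at most `X` with first passage location `b` and `A` odd steps -/
noncomputable def SA (X : ℕ) (y : ℤ) (tm : ℕ) (b : ℤ) (A : ℕ) : Finset ℤ :=
  (Finset.Icc (-(X : ℤ)) X).filter (fun n => ∃ t ≤ tm, FP y t n ∧ T^[t] n = b ∧ od t n = A)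

open Classical in
/-- integers of size at most `X` with first passage location `b` -/
noncomputable def SB (X : ℕ) (y : ℤ) (tm : ℕ) (b : ℤ) : Finset ℤ :=
  (Finset.Icc (-(X : ℤ)) X).filter (fun n => ∃ t ≤ tm, FP y t n ∧ T^[t] n = b)

theorem card_SA {X : ℕ} {y : ℤ} (hy : 0 < y) {tm : ℕ} (htm : (tm : ℤ) ≤ y) {b : ℤ} (hb : b ≠ 0) (A : ℕ) :
    (SA X y tm b A).card * b.natAbs ≤ 6 * (tm + 1) * X := by
  classical
  obtain ⟨L, hL1, hL2⟩ := exists_L A
  have hbpos : 0 < b.natAbs := Int.natAbs_pos.mpr hb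
  have hcard : (SA X y tm b A).card ≤ (Finset.Icc 1 (6 * (tm + 1) * X / b.natAbs)).card := by
    apply Finset.card_le_card_of_injOn (fun n => 2 ^ (tt y n - L) + (n % 2 ^ (tt y n - L)).toNat)
    · intro n hn
      simp only [SA, Finset.coe_filter, Set.mem_ofPred_eq] at hn
      obtain ⟨hX, t, ht, hfp, hTb, hod⟩ := hn
      have hty : (t : ℤ) ≤ y := le_trans (by exact_mod_cast ht) htm
      simp only [Finset.coe_Icc, Set.mem_Icc]
      rw [tt_eq hfp]
      have hLt : L ≤ t := L_le hy hfp hty (by rw [hod]; exact hL1)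
      refine ⟨by have : 0 < 2 ^ (t - L) := by positivity
                 omega, ?_⟩
      rw [Nat.le_div_iff_mul_le hbpos]
      have hr0 : 0 ≤ n % 2 ^ (t - L) := Int.emod_nonneg _ (by positivity)
      have hr1 : n % 2 ^ (t - L) < 2 ^ (t - L) := Int.emod_lt_of_pos _ (by positivity)
      have hz : 2 ^ (t - L) + (n % 2 ^ (t - L)).toNat ≤ 2 * 2 ^ (t - L) := by
        have : ((n % 2 ^ (t - L)).toNat : ℤ) < 2 ^ (t - L) := by rw [Int.toNat_of_nonneg hr0]; exact hr1
        have : (n % 2 ^ (t - L)).toNat < 2 ^ (t - L) := by exact_mod_cast this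
        omega
      have h1 := hfp.le_ratio hy hty
      rw [hTb, hod] at h1
      have hnX : |n| ≤ X := by rw [Finset.mem_Icc] at hX; exact abs_le.mpr hX
      have h2 : 2 * (2 ^ t * b.natAbs) ≤ 3 * (3 ^ A * X) := by
        have : (2 : ℤ) * (2 ^ t * |b|) ≤ 3 * (3 ^ A * X) := by
          refine le_trans h1 ?_
          have : (0 : ℤ) < 3 ^ A := by positivity
          nlinarith
        rw [← Int.natCast_natAbs] at this
        exact_mod_cast this
      have h3 : 2 ^ t = 2 ^ L * 2 ^ (t - L) := by rw [← pow_add]; congr 1; omega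
      have h4 : 2 ^ (L + 1) * (2 ^ (t - L) * b.natAbs) ≤ 2 ^ (L + 1) * (3 * (L + 1) * X) := by
        calc 2 ^ (L + 1) * (2 ^ (t - L) * b.natAbs) = 2 * (2 ^ L * 2 ^ (t - L) * b.natAbs) := by
              rw [pow_succ]; ring
          _ = 2 * (2 ^ t * b.natAbs) := by rw [← h3]
          _ ≤ 3 * (3 ^ A * X) := h2
          _ ≤ 3 * ((L + 1) * 2 ^ (L + 1) * X) := by gcongr
          _ = _ := by ring
      have h5 : 2 ^ (t - L) * b.natAbs ≤ 3 * (L + 1) * X := Nat.le_of_mul_le_mul_left h4 (by positivity)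
      calc (2 ^ (t - L) + (n % 2 ^ (t - L)).toNat) * b.natAbs ≤ 2 * 2 ^ (t - L) * b.natAbs := by gcongr
        _ = 2 * (2 ^ (t - L) * b.natAbs) := by ring
        _ ≤ 2 * (3 * (L + 1) * X) := by gcongr
        _ ≤ 2 * (3 * (tm + 1) * X) := by gcongr; omega
        _ = _ := by ring
    · intro n hn n' hn' heq
      simp only [SA, Finset.coe_filter, Set.mem_ofPred_eq] at hn hn'
      obtain ⟨_, t, ht, hfp, hTb, hod⟩ := hn
      obtain ⟨_, t', ht', hfp', hTb', hod'⟩ := hn'
      have hty : (t : ℤ) ≤ y := le_trans (by exact_mod_cast ht) htm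
      have hty' : (t' : ℤ) ≤ y := le_trans (by exact_mod_cast ht') htm
      have hLt : L ≤ t := L_le hy hfp hty (by rw [hod]; exact hL1)
      have hLt' : L ≤ t' := L_le hy hfp' hty' (by rw [hod']; exact hL1)
      simp only [tt_eq hfp, tt_eq hfp'] at heq
      have hr0 : 0 ≤ n % 2 ^ (t - L) := Int.emod_nonneg _ (by positivity)
      have hr1 : n % 2 ^ (t - L) < 2 ^ (t - L) := Int.emod_lt_of_pos _ (by positivity)
      have hr0' : 0 ≤ n' % 2 ^ (t' - L) := Int.emod_nonneg _ (by positivity)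
      have hr1' : n' % 2 ^ (t' - L) < 2 ^ (t' - L) := Int.emod_lt_of_pos _ (by positivity)
      have ha : (n % 2 ^ (t - L)).toNat < 2 ^ (t - L) := by
        have : ((n % 2 ^ (t - L)).toNat : ℤ) < 2 ^ (t - L) := by rw [Int.toNat_of_nonneg hr0]; exact hr1
        exact_mod_cast this
      have ha' : (n' % 2 ^ (t' - L)).toNat < 2 ^ (t' - L) := by
        have : ((n' % 2 ^ (t' - L)).toNat : ℤ) < 2 ^ (t' - L) := by rw [Int.toNat_of_nonneg hr0']; exact hr1'
        exact_mod_cast this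
      have hv : t - L = t' - L := by
        by_contra hne
        rcases lt_or_gt_of_ne hne with hlt | hgt
        · have h1 : 2 ^ (t - L + 1) ≤ 2 ^ (t' - L) := Nat.pow_le_pow_right (by norm_num) hlt
          rw [pow_succ] at h1
          omega
        · have h1 : 2 ^ (t' - L + 1) ≤ 2 ^ (t - L) := Nat.pow_le_pow_right (by norm_num) hgt
          rw [pow_succ] at h1
          omega
      have htt : t = t' := by omega
      subst htt
      have hmodN : (n % 2 ^ (t - L)).toNat = (n' % 2 ^ (t - L)).toNat := by omega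
      have hmod : n' % 2 ^ (t - L) = n % 2 ^ (t - L) := by
        rw [← Int.toNat_of_nonneg hr0, ← Int.toNat_of_nonneg hr0', hmodN]
      have hsplit : t - L + L = t := by omega
      refine FP.inj hy (u := t - L) (L := L) ?_ ?_ ?_ ?_ ?_ ?_ hmod
      · rw [hsplit]; exact hfp
      · rw [hsplit]; exact hfp'
      · rw [hsplit]; exact hty
      · rw [hsplit, hTb, hTb']
      · rw [hsplit, hod, hod']
      · rw [hsplit, hod]; exact_mod_cast hL1
  rw [Nat.card_Icc] at hcard
  calc (SA X y tm b A).card * b.natAbs ≤ (6 * (tm + 1) * X / b.natAbs) * b.natAbs := by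
        gcongr; simpa using hcard
    _ ≤ _ := Nat.div_mul_le_self _ _

/-- **Flatness of the first passage location.** -/
theorem card_SB {X : ℕ} {y : ℤ} (hy : 0 < y) {tm : ℕ} (htm : (tm : ℤ) ≤ y) {b : ℤ} (hb : b ≠ 0) :
    (SB X y tm b).card * b.natAbs ≤ 6 * (tm + 1) ^ 2 * X := by
  classical
  have hsub : SB X y tm b ⊆ (Finset.range (tm + 1)).biUnion (fun A => SA X y tm b A) := by
    intro n hn
    simp only [SB, Finset.mem_filter] at hn
    obtain ⟨hX, t, ht, hfp, hTb⟩ := hn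
    rw [Finset.mem_biUnion]
    refine ⟨od t n, ?_, ?_⟩
    · rw [Finset.mem_range]
      have := od_le t n
      omega
    · simp only [SA, Finset.mem_filter]
      exact ⟨hX, t, ht, hfp, hTb, rfl⟩
  have h1 : (SB X y tm b).card ≤ ∑ A ∈ Finset.range (tm + 1), (SA X y tm b A).card :=
    le_trans (Finset.card_le_card hsub) Finset.card_biUnion_le
  calc (SB X y tm b).card * b.natAbs
      ≤ (∑ A ∈ Finset.range (tm + 1), (SA X y tm b A).card) * b.natAbs := by gcongr
    _ = ∑ A ∈ Finset.range (tm + 1), (SA X y tm b A).card * b.natAbs := Finset.sum_mul _ _ _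
    _ ≤ ∑ A ∈ Finset.range (tm + 1), 6 * (tm + 1) * X := Finset.sum_le_sum (fun A _ => card_SA hy htm hb A)
    _ = _ := by rw [Finset.sum_const, Finset.card_range, smul_eq_mul]; ring

end Pool.Agent.Helper3.ND
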