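import Pool.Agent.Helper3.ND.Stage

/-! Real variable form, and the passage to the Syracuse map. -/

namespace Pool.Agent.Helper3.ND

/-- Syracuse map on the integers -/
def syr (m : ℤ) : ℤ := (3 * m + 1) / 2 ^ padicValInt 2 (3 * m + 1)

theorem syr_spec {N : ℤ} (hN : Odd N) : ∃ v : ℕ, 3 * N + 1 = 2 ^ (v + 1) * syr N ∧ Odd (syr N) := by
  have hne : 3 * N + 1 ≠ 0 := by omega
  set v := padicValInt 2 (3 * N + 1) with hv
  have hdvd : (2 : ℤ) ^ v ∣ 3 * N + 1 := by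
    have := padicValInt_dvd (p := 2) (a := 3 * N + 1)
    exact_mod_cast this
  have hsyr : 3 * N + 1 = 2 ^ v * syr N := by
    unfold syr
    rw [← hv]
    exact (Int.mul_ediv_cancel' hdvd).symm
  have heven : (2 : ℤ) ∣ 3 * N + 1 := by
    obtain ⟨k, rfl⟩ := hN
    exact ⟨3 * k + 2, by ring⟩
  have hodd : Odd (syr N) := by
    rw [← Int.not_even_iff_odd]
    intro he
    obtain ⟨k, hk⟩ := he.two_dvd
    have h2 : (2 : ℤ) ^ (v + 1) ∣ 3 * N + 1 := by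
      rw [hsyr, hk, pow_succ]
      exact ⟨k, by ring⟩
    have h3 := (@padicValInt_dvd_iff 2 _ (v + 1) (3 * N + 1)).mp (by exact_mod_cast h2)
    rcases h3 with h3 | h3
    · exact hne h3
    · omega
  have hvpos : 0 < v := by
    have h3 := (@padicValInt_dvd_iff 2 _ 1 (3 * N + 1)).mp (by simpa using heven)
    rcases h3 with h3 | h3
    · exact absurd h3 hne
    · omega
  refine ⟨v - 1, ?_, hodd⟩
  rw [Nat.sub_add_cancel hvpos]
  exact hsyr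

/-- each iterate of an odd integer under `T` is a power of two times a Syracuse iterate -/
theorem T_iter_syr {N : ℤ} (hN : Odd N) (t : ℕ) :
    ∃ k ≤ t, ∃ i : ℕ, T^[t] N = 2 ^ i * syr^[k] N ∧ Odd (syr^[k] N) := by
  induction t with
  | zero => exact ⟨0, le_rfl, 0, by simp, hN⟩
  | succ t ih =>
    obtain ⟨k, hk, i, h, ho⟩ := ih
    rw [Function.iterate_succ_apply', h]
    rcases Nat.eq_zero_or_pos i with h0 | h0
    · subst h0
      obtain ⟨v, hv, ho'⟩ := syr_spec ho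
      refine ⟨k + 1, by omega, v, ?_, ?_⟩
      · rw [Function.iterate_succ_apply']
        have h1 : (syr^[k] N) % 2 = 1 := Int.odd_iff.mp ho
        have h2 := T_odd h1
        rw [hv, pow_succ] at h2
        rw [pow_zero, one_mul]
        linarith
      · rw [Function.iterate_succ_apply']; exact ho'
    · refine ⟨k, by omega, i - 1, ?_, ho⟩
      obtain ⟨w, rfl⟩ := Nat.exists_eq_succ_of_ne_zero h0.ne'
      have h1 : (2 ^ (w + 1) * syr^[k] N) % 2 = 0 := by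
        rw [pow_succ, mul_assoc, mul_comm (2 ^ w) _, mul_assoc]
        exact Int.mul_emod_right _ _
      have h2 := T_even h1
      rw [pow_succ] at h2
      simp only [Nat.succ_eq_add_one, Nat.add_sub_cancel]
      rw [pow_succ]
      linarith

theorem log_two_ge : (0.69 : ℝ) ≤ Real.log 2 := by
  have := Real.log_two_gt_d9
  linarith

theorem main (x Y : ℝ) (hx : 2 ≤ x) (hY : 1 ≤ Y) :
    ({N : ℤ | |(N : ℝ)| ≤ x ∧ ∀ t : ℕ, (t : ℝ) ≤ 600 * Real.log x → Y < |((T^[t] N : ℤ) : ℝ)|}.ncard : ℝ) ≤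
      4 * 10 ^ 10 * x * Real.log x ^ 2 * Y ^ (-(1 / 22) : ℝ) := by
  classical
  -- choice of `k`
  obtain ⟨k, hk⟩ : ∃ k, k = Nat.clog 2 ⌈x⌉₊ := ⟨_, rfl⟩
  have hx2 : 2 ≤ ⌈x⌉₊ := by
    have : (1 : ℝ) < x := by linarith
    have h1 : 1 < ⌈x⌉₊ := Nat.lt_ceil.mpr (by exact_mod_cast this)
    omega
  have hxk : x ≤ 2 ^ k := by
    have h1 : ⌈x⌉₊ ≤ 2 ^ k := by rw [hk]; exact Nat.le_pow_clog (by norm_num) _
    exact le_trans (Nat.le_ceil x) (by exact_mod_cast h1)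
  have hk1 : 1 ≤ k := by
    rw [hk]; exact Nat.clog_pos (by norm_num) hx2
  have hkx : (2 : ℝ) ^ (k - 1) < x := by
    have h1 : 2 ^ (k - 1) < ⌈x⌉₊ := by
      rw [hk]; exact Nat.pow_pred_clog_lt_self (by norm_num) (by omega)
    have h2 : (2 ^ (k - 1) : ℕ) < x := Nat.lt_ceil.mp h1
    exact_mod_cast h2
  have hlog2 := log_two_ge
  have hlogx : Real.log 2 ≤ Real.log x := Real.log_le_log (by norm_num) hx
  have hk3 : (k : ℝ) ≤ 2.97 * Real.log x := by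
    have h1 : ((k - 1 : ℕ) : ℝ) * Real.log 2 ≤ Real.log x := by
      rw [← Real.log_pow]
      exact Real.log_le_log (by positivity) hkx.le
    have h2 : ((k - 1 : ℕ) : ℝ) = (k : ℝ) - 1 := by push_cast [hk1]; ring
    rw [h2] at h1
    have h3 : (k : ℝ) * Real.log 2 ≤ 2 * Real.log x := by linarith
    have hk0 : (0 : ℝ) ≤ k := by positivity
    have h4 : (k : ℝ) * 0.69 ≤ (k : ℝ) * Real.log 2 := mul_le_mul_of_nonneg_left hlog2 hk0
    nlinarith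
  have h2k : (2 : ℝ) ^ k ≤ 2 * x := by
    obtain ⟨w, rfl⟩ := Nat.exists_eq_succ_of_ne_zero (by omega : k ≠ 0)
    rw [Nat.succ_eq_add_one, Nat.add_sub_cancel] at hkx
    rw [Nat.succ_eq_add_one, pow_succ]
    linarith
  -- choice of `J`
  obtain ⟨J, hJ⟩ : ∃ J, J = Nat.log 2 ⌊Y⌋₊ := ⟨_, rfl⟩
  have hY1 : ⌊Y⌋₊ ≠ 0 := by
    have : 1 ≤ ⌊Y⌋₊ := Nat.le_floor (by exact_mod_cast hY)
    omega
  have hJY : (2 : ℝ) ^ J ≤ Y := by
    have h1 : 2 ^ J ≤ ⌊Y⌋₊ := by rw [hJ]; exact Nat.pow_log_le_self 2 hY1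
    exact le_trans (by exact_mod_cast h1) (Nat.floor_le (by linarith))
  have hYJ : Y ≤ 2 ^ (J + 1) := by
    have h1 : ⌊Y⌋₊ < 2 ^ (J + 1) := by rw [hJ]; exact Nat.lt_pow_succ_log_self (by norm_num) _
    have h2 := (Nat.lt_floor_add_one Y).le
    have h3 : ((⌊Y⌋₊ : ℝ) + 1) ≤ 2 ^ (J + 1) := by exact_mod_cast h1
    linarith
  have hη : eta ^ J ≤ 2 * Y ^ (-(1 / 22) : ℝ) := by
    have h1 : eta ^ (J + 1) ≤ Y ^ (-(1 / 22) : ℝ) := by
      have h2 : eta ^ (J + 1) = ((2 : ℝ) ^ (J + 1)) ^ (-(1 / 22) : ℝ) := by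
        unfold eta
        rw [← Real.rpow_natCast, ← Real.rpow_mul (by norm_num), mul_comm, Real.rpow_mul (by norm_num),
          Real.rpow_natCast]
      rw [h2]
      exact Real.rpow_le_rpow_of_nonpos (by linarith) hYJ (by norm_num)
    have h3 := half_le_eta
    have h4 : 0 < eta ^ J := pow_pos eta_pos _
    rw [pow_succ] at h1
    nlinarith
  -- inclusion
  have hsub : {N : ℤ | |(N : ℝ)| ≤ x ∧ ∀ t : ℕ, (t : ℝ) ≤ 600 * Real.log x → Y < |((T^[t] N : ℤ) : ℝ)|} ⊆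
      ((Up k J : Finset ℤ) : Set ℤ) := by
    rintro N ⟨h1, h2⟩
    simp only [Up, Finset.coe_filter, Finset.mem_Icc, Set.mem_ofPred_eq]
    refine ⟨?_, ?_⟩
    · rw [← abs_le]
      have h3 : ((|N| : ℤ) : ℝ) ≤ 2 ^ k := by
        rw [Int.cast_abs]
        exact le_trans h1 hxk
      exact_mod_cast h3
    · intro t ht
      have h3 : (t : ℝ) ≤ 600 * Real.log x := by
        have h4 : (t : ℝ) ≤ 202 * k := by exact_mod_cast ht
        nlinarith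
      have h4 := h2 t h3
      have h5 : ((2 ^ J : ℤ) : ℝ) < ((|T^[t] N| : ℤ) : ℝ) := by
        rw [Int.cast_abs]
        push_cast
        exact lt_of_le_of_lt hJY h4
      exact_mod_cast h5
  have h1 := Set.ncard_le_ncard hsub (Finset.finite_toSet _)
  rw [Set.ncard_coe_finset] at h1
  have h2 := card_Up k J hk1
  have hYp : 0 < Y ^ (-(1 / 22) : ℝ) := Real.rpow_pos_of_pos (by linarith) _
  have hL : 0 ≤ Real.log x := by linarith
  calc ({N : ℤ | |(N : ℝ)| ≤ x ∧ ∀ t : ℕ, (t : ℝ) ≤ 600 * Real.log x →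
        Y < |((T^[t] N : ℤ) : ℝ)|}.ncard : ℝ) ≤ ((Up k J).card : ℝ) := by exact_mod_cast h1
    _ ≤ 10 ^ 9 * (k : ℝ) ^ 2 * 2 ^ k * eta ^ J := h2
    _ ≤ 10 ^ 9 * (2.97 * Real.log x) ^ 2 * (2 * x) * (2 * Y ^ (-(1 / 22) : ℝ)) := by
        have := pow_pos eta_pos J
        gcongr
    _ = (10 ^ 9 * 4 * 2.97 ^ 2) * (x * Real.log x ^ 2 * Y ^ (-(1 / 22) : ℝ)) := by ring
    _ ≤ (4 * 10 ^ 10) * (x * Real.log x ^ 2 * Y ^ (-(1 / 22) : ℝ)) := by
        apply mul_le_mul_of_nonneg_right _ (by positivity)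
        norm_num
    _ = _ := by ring

/-- odd integers, Syracuse map -/
theorem main_syr (x Y : ℝ) (hx : 2 ≤ x) (hY : 1 ≤ Y) (S : Set ℤ)
    (hS : ∀ N ∈ S, Odd N ∧ |(N : ℝ)| ≤ x ∧
      ∀ k : ℕ, (k : ℝ) ≤ 600 * Real.log x → Y < |((syr^[k] N : ℤ) : ℝ)|) :
    (S.ncard : ℝ) ≤ 4 * 10 ^ 10 * x * Real.log x ^ 2 * Y ^ (-(1 / 22) : ℝ) := by
  refine le_trans ?_ (main x Y hx hY)
  have hfin : {N : ℤ | |(N : ℝ)| ≤ x ∧ ∀ t : ℕ, (t : ℝ) ≤ 600 * Real.log x →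
      Y < |((T^[t] N : ℤ) : ℝ)|}.Finite := by
    apply Set.Finite.subset (Set.finite_Icc ⌈-x⌉ ⌊x⌋)
    rintro n ⟨h1, _⟩
    rw [abs_le] at h1
    exact ⟨Int.ceil_le.mpr h1.1, Int.le_floor.mpr h1.2⟩
  have hsub : S ⊆ {N : ℤ | |(N : ℝ)| ≤ x ∧ ∀ t : ℕ, (t : ℝ) ≤ 600 * Real.log x →
      Y < |((T^[t] N : ℤ) : ℝ)|} := by
    intro N hN
    obtain ⟨ho, h1, h2⟩ := hS N hN
    refine ⟨h1, fun t ht => ?_⟩
    obtain ⟨k, hk, i, h3, _⟩ := T_iter_syr ho t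
    have h4 := h2 k (le_trans (by exact_mod_cast hk) ht)
    rw [h3]
    push_cast
    rw [abs_mul]
    have h5 : (1 : ℝ) ≤ |(2 : ℝ) ^ i| := by
      rw [abs_of_pos (by positivity)]
      exact one_le_pow₀ (by norm_num)
    have h6 : 0 ≤ |((syr^[k] N : ℤ) : ℝ)| := abs_nonneg _
    nlinarith
  exact_mod_cast Set.ncard_le_ncard hsub hfin

end Pool.Agent.Helper3.ND
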