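import Pool.Agent.Helper3.ND.Basic

/-! First passages: two sided growth bounds and the injectivity lemma. -/

namespace Pool.Agent.Helper3.ND

/-- `t` is the time of the first passage of the orbit of `n` into `[-y, y]` -/
def FP (y : ℤ) (t : ℕ) (n : ℤ) : Prop := (∀ i < t, y < |T^[i] n|) ∧ |T^[t] n| ≤ y

theorem above_succ {y : ℤ} {j : ℕ} {n : ℤ} (h : ∀ i < j + 1, y < |T^[i] n|) :
    y < |n| ∧ ∀ i < j, y < |T^[i] (T n)| := by
  refine ⟨by simpa using h 0 (by omega), fun i hi => ?_⟩
  have := h (i + 1) (by omega)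
  rwa [Function.iterate_succ_apply] at this

theorem FP.succ {y : ℤ} {j : ℕ} {n : ℤ} (h : FP y (j + 1) n) : y < |n| ∧ FP y j (T n) := by
  obtain ⟨h1, h2⟩ := above_succ h.1
  refine ⟨h1, h2, ?_⟩
  have := h.2
  rwa [Function.iterate_succ_apply] at this

theorem FP.drop {y : ℤ} (u : ℕ) : ∀ {j : ℕ} {n : ℤ}, FP y (u + j) n → FP y j (T^[u] n) := by
  induction u with
  | zero => intro j n h; simpa using h
  | succ u ih =>
    intro j n h
    rw [Function.iterate_succ_apply]
    apply ih
    have e : u + 1 + j = (u + j) + 1 := by ring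
    rw [e] at h
    exact h.succ.2

theorem lower {y : ℤ} (hy : 0 < y) (j : ℕ) : ∀ n : ℤ, (∀ i < j, y < |T^[i] n|) → (j : ℤ) ≤ 3 * y →
    (3 * y - od j n) * (3 ^ od j n * |n|) ≤ 3 * y * (2 ^ j * |T^[j] n|) := by
  induction j with
  | zero => intro n _ _; simp [od]
  | succ j ih =>
    intro n hn hj
    obtain ⟨h1, h2⟩ := above_succ hn
    have h3 := ih (T n) h2 (by push_cast at hj; linarith)
    rw [Function.iterate_succ_apply]
    have h4 : (0 : ℤ) < 3 ^ od j (T n) := by positivity
    have hod : (od j (T n) : ℤ) ≤ j := by exact_mod_cast od_le j (T n)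
    rcases par_cases n with h | h
    · rw [od_succ_even h]
      have h5 : |n| = 2 * |T n| := by
        have h6 : |2 * T n| = 2 * |T n| := by rw [abs_mul, abs_two]
        rwa [T_even h] at h6
      rw [h5, pow_succ]
      nlinarith
    · rw [od_succ_odd h]
      have h5 : 3 * |n| - 1 ≤ 2 * |T n| := by
        have h6 := T_odd h
        have h7 : |2 * T n| = 2 * |T n| := by rw [abs_mul, abs_two]
        have h8 : |3 * n| = 3 * |n| := by rw [abs_mul]; norm_num
        have h9 : |3 * n| ≤ |3 * n + 1| + 1 := by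
          have := abs_sub_abs_le_abs_sub (3 * n) (3 * n + 1)
          have h10 : |3 * n - (3 * n + 1)| = 1 := by
            rw [show 3 * n - (3 * n + 1) = -1 by ring]; rfl
          linarith
        rw [← h6] at h9
        linarith
      have h6 : (3 * y - 1) * |n| ≤ y * (2 * |T n|) := by nlinarith
      have h7 : (0 : ℤ) ≤ 3 * y - od j (T n) := by push_cast at hj; linarith
      have h8 : 3 * (3 * y - (od j (T n) : ℤ) - 1) * |n| ≤ (3 * y - od j (T n)) * (2 * |T n|) := by
        have h9 : y * (3 * (3 * y - (od j (T n) : ℤ) - 1) * |n|) ≤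
            y * ((3 * y - od j (T n)) * (2 * |T n|)) := by
          calc y * (3 * (3 * y - (od j (T n) : ℤ) - 1) * |n|)
              = (3 * y * (3 * y - (od j (T n) : ℤ) - 1)) * |n| := by ring
            _ ≤ ((3 * y - od j (T n)) * (3 * y - 1)) * |n| := by
                apply mul_le_mul_of_nonneg_right _ (abs_nonneg n)
                have : (0 : ℤ) ≤ od j (T n) := by positivity
                nlinarith
            _ = (3 * y - od j (T n)) * ((3 * y - 1) * |n|) := by ring
            _ ≤ (3 * y - od j (T n)) * (y * (2 * |T n|)) := mul_le_mul_of_nonneg_left h6 h7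
            _ = _ := by ring
        exact le_of_mul_le_mul_left h9 hy
      push_cast
      calc (3 * y - ((od j (T n) : ℤ) + 1)) * (3 ^ (od j (T n) + 1) * |n|)
          = 3 ^ od j (T n) * (3 * (3 * y - (od j (T n) : ℤ) - 1) * |n|) := by rw [pow_succ]; ring
        _ ≤ 3 ^ od j (T n) * ((3 * y - od j (T n)) * (2 * |T n|)) := mul_le_mul_of_nonneg_left h8 h4.le
        _ = 2 * ((3 * y - od j (T n)) * (3 ^ od j (T n) * |T n|)) := by ring
        _ ≤ 2 * (3 * y * (2 ^ j * |T^[j] (T n)|)) := by linarith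
        _ = _ := by rw [pow_succ]; ring

theorem upper {y : ℤ} (hy : 0 < y) (j : ℕ) : ∀ n : ℤ, (∀ i < j, y < |T^[i] n|) → (j : ℤ) ≤ 3 * y →
    (3 * y - od j n) * (2 ^ j * |T^[j] n|) ≤ 3 * y * (3 ^ od j n * |n|) := by
  induction j with
  | zero => intro n _ _; simp [od]
  | succ j ih =>
    intro n hn hj
    obtain ⟨h1, h2⟩ := above_succ hn
    have h3 := ih (T n) h2 (by push_cast at hj; linarith)
    rw [Function.iterate_succ_apply]
    have h4 : (0 : ℤ) < 3 ^ od j (T n) := by positivity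
    have hod : (od j (T n) : ℤ) ≤ j := by exact_mod_cast od_le j (T n)
    have hX : (0 : ℤ) ≤ 2 ^ j * |T^[j] (T n)| := by positivity
    rcases par_cases n with h | h
    · rw [od_succ_even h]
      have h5 : |n| = 2 * |T n| := by
        have h6 : |2 * T n| = 2 * |T n| := by rw [abs_mul, abs_two]
        rwa [T_even h] at h6
      rw [h5, pow_succ]
      nlinarith
    · rw [od_succ_odd h]
      have h5 : 2 * |T n| ≤ 3 * |n| + 1 := by
        have h6 := T_odd h
        have h7 : |2 * T n| = 2 * |T n| := by rw [abs_mul, abs_two]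
        have h8 : |3 * n| = 3 * |n| := by rw [abs_mul]; norm_num
        have h9 : |3 * n + 1| ≤ |3 * n| + 1 := by
          have := abs_add_le (3 * n) 1
          simpa using this
        rw [← h6] at h9
        linarith
      have h6 : y * (2 * |T n|) ≤ (3 * y + 1) * |n| := by nlinarith
      -- (3y - od - 1) X <= ...
      have h7 : (3 * y - (od j (T n) : ℤ) - 1) * (3 * y + 1) ≤ 3 * y * (3 * y - od j (T n)) := by
        have : (0 : ℤ) ≤ od j (T n) := by positivity
        nlinarith
      have h8 : (0 : ℤ) ≤ 3 * y - od j (T n) - 1 := by push_cast at hj; linarith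
      push_cast
      -- multiply by y (3y - od) > 0
      have hq : (0 : ℤ) < 3 * y - od j (T n) := by linarith
      have key : (3 * y - od j (T n)) * (y * ((3 * y - ((od j (T n) : ℤ) + 1)) * (2 ^ (j + 1) * |T^[j] (T n)|))) ≤
          (3 * y - od j (T n)) * (y * (3 * y * (3 ^ (od j (T n) + 1) * |n|))) := by
        calc (3 * y - od j (T n)) * (y * ((3 * y - ((od j (T n) : ℤ) + 1)) * (2 ^ (j + 1) * |T^[j] (T n)|)))
            = (2 * y * (3 * y - (od j (T n) : ℤ) - 1)) * ((3 * y - od j (T n)) * (2 ^ j * |T^[j] (T n)|)) := by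
              rw [pow_succ]; ring
          _ ≤ (2 * y * (3 * y - (od j (T n) : ℤ) - 1)) * (3 * y * (3 ^ od j (T n) * |T n|)) :=
              mul_le_mul_of_nonneg_left h3 (by positivity)
          _ = ((3 * y - (od j (T n) : ℤ) - 1) * (3 * y * 3 ^ od j (T n))) * (y * (2 * |T n|)) := by ring
          _ ≤ ((3 * y - (od j (T n) : ℤ) - 1) * (3 * y * 3 ^ od j (T n))) * ((3 * y + 1) * |n|) :=
              mul_le_mul_of_nonneg_left h6 (by positivity)
          _ = ((3 * y - (od j (T n) : ℤ) - 1) * (3 * y + 1)) * (3 * y * 3 ^ od j (T n) * |n|) := by ring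
          _ ≤ (3 * y * (3 * y - od j (T n))) * (3 * y * 3 ^ od j (T n) * |n|) :=
              mul_le_mul_of_nonneg_right h7 (by positivity)
          _ = _ := by rw [pow_succ]; ring
      exact le_of_mul_le_mul_left (le_of_mul_le_mul_left key hq) hy

/-- consequences at a first passage with `t ≤ y` -/
theorem FP.ratio_le {y : ℤ} (hy : 0 < y) {t : ℕ} {n : ℤ} (h : FP y t n) (ht : (t : ℤ) ≤ y) :
    2 * (3 ^ od t n * |n|) ≤ 3 * (2 ^ t * |T^[t] n|) := by
  have h1 := lower hy t n h.1 (by linarith)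
  have hod : (od t n : ℤ) ≤ t := by exact_mod_cast od_le t n
  have h2 : 2 * y * (3 ^ od t n * |n|) ≤ 3 * y * (2 ^ t * |T^[t] n|) := by
    refine le_trans (mul_le_mul_of_nonneg_right ?_ (by positivity)) h1
    linarith
  have h3 : y * (2 * (3 ^ od t n * |n|)) ≤ y * (3 * (2 ^ t * |T^[t] n|)) := by linarith
  exact le_of_mul_le_mul_left h3 hy

theorem FP.le_ratio {y : ℤ} (hy : 0 < y) {t : ℕ} {n : ℤ} (h : FP y t n) (ht : (t : ℤ) ≤ y) :
    2 * (2 ^ t * |T^[t] n|) ≤ 3 * (3 ^ od t n * |n|) := by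
  have h1 := upper hy t n h.1 (by linarith)
  have hod : (od t n : ℤ) ≤ t := by exact_mod_cast od_le t n
  have h2 : 2 * y * (2 ^ t * |T^[t] n|) ≤ 3 * y * (3 ^ od t n * |n|) := by
    refine le_trans (mul_le_mul_of_nonneg_right ?_ (by positivity)) h1
    linarith
  have h3 : y * (2 * (2 ^ t * |T^[t] n|)) ≤ y * (3 * (3 ^ od t n * |n|)) := by linarith
  exact le_of_mul_le_mul_left h3 hy

/-- at a first passage the power of `3` is at most `3 / 2` times the power of `2` -/
theorem FP.pow_le {y : ℤ} (hy : 0 < y) {t : ℕ} {n : ℤ} (h : FP y t n) (ht : (t : ℤ) ≤ y) :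
    (2 : ℤ) * 3 ^ od t n ≤ 3 * 2 ^ t := by
  rcases Nat.eq_zero_or_pos t with h0 | h0
  · subst h0; simp [od]
  have h1 := h.ratio_le hy ht
  have h2 : y < |n| := by simpa using h.1 0 h0
  have h3 := h.2
  have h4 : (0 : ℤ) < 3 ^ od t n := by positivity
  have h5 : (0 : ℤ) < 2 ^ t := by positivity
  have h6 : y * (2 * 3 ^ od t n) ≤ y * (3 * 2 ^ t) := by
    calc y * (2 * 3 ^ od t n) = 2 * (3 ^ od t n * y) := by ring
      _ ≤ 2 * (3 ^ od t n * |n|) := by
          have := mul_le_mul_of_nonneg_left h2.le h4.le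
          linarith
      _ ≤ 3 * (2 ^ t * |T^[t] n|) := h1
      _ ≤ 3 * (2 ^ t * y) := by
          have := mul_le_mul_of_nonneg_left h3 h5.le
          linarith
      _ = _ := by ring
  exact le_of_mul_le_mul_left h6 hy

theorem FP.cc_le {y : ℤ} (hy : 0 < y) (t : ℕ) : ∀ {n : ℤ}, FP y t n → (t : ℤ) ≤ y →
    4 * cc t n ≤ 3 * t * 2 ^ t := by
  induction t with
  | zero => intro n _ _; simp [cc]
  | succ t ih =>
    intro n h ht
    obtain ⟨_, h2⟩ := h.succ
    have h3 := ih h2 (by push_cast at ht; linarith)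
    have h4 := h2.pow_le hy (by push_cast at ht; linarith)
    have h5 : (0 : ℤ) < 2 ^ t := by positivity
    push_cast
    rcases par_cases n with h | h
    · rw [cc_succ_even h, pow_succ]
      nlinarith
    · rw [cc_succ_odd h, pow_succ]
      nlinarith

/-- **Injectivity.** -/
theorem FP.inj {y : ℤ} (hy : 0 < y) {u L : ℕ} {n n' : ℤ} (h : FP y (u + L) n) (h' : FP y (u + L) n')
    (ht : ((u + L : ℕ) : ℤ) ≤ y) (hb : T^[u + L] n = T^[u + L] n')
    (hA : od (u + L) n = od (u + L) n') (hL : (L : ℤ) * 2 ^ L < 3 ^ od (u + L) n)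
    (hmod : n' % 2 ^ u = n % 2 ^ u) : n = n' := by
  obtain ⟨m, hm⟩ : ∃ m, n' = n + 2 ^ u * m := by
    have := Int.emod_emod_of_dvd
    have h1 : (2 : ℤ) ^ u ∣ n' - n := Int.ModEq.dvd hmod.symm
    obtain ⟨m, hm⟩ := h1
    exact ⟨m, by linarith⟩
  obtain ⟨h1, h2⟩ := shift u n m
  rw [← hm] at h1 h2
  have h3 := od_add u L n
  have h4 := od_add u L n'
  have hA' : od L (T^[u] n) = od L (T^[u] n') := by omega
  have h5 := affine L (T^[u] n)
  have h6 := affine L (T^[u] n')
  have e1 : T^[L] (T^[u] n) = T^[u + L] n := by rw [add_comm u L, Function.iterate_add_apply]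
  have e2 : T^[L] (T^[u] n') = T^[u + L] n' := by rw [add_comm u L, Function.iterate_add_apply]
  rw [e1] at h5
  rw [e2, ← hb, ← hA'] at h6
  have hLy : (L : ℤ) ≤ y := by push_cast at ht; have : (0 : ℤ) ≤ u := by positivity
                               linarith
  have c1 := (h.drop u).cc_le hy L hLy
  have c2 := (h'.drop u).cc_le hy L hLy
  have c3 := cc_nonneg L (T^[u] n)
  have c4 := cc_nonneg L (T^[u] n')
  have key : 3 ^ od (u + L) n * m = cc L (T^[u] n) - cc L (T^[u] n') := by
    rw [h3, pow_add]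
    have h7 : 3 ^ od L (T^[u] n) * (T^[u] n' - T^[u] n) = cc L (T^[u] n) - cc L (T^[u] n') := by
      linarith
    have h8 : T^[u] n' - T^[u] n = 3 ^ od u n * m := by rw [h2]; ring
    rw [h8] at h7
    rw [← h7]; ring
  have b0 : (0 : ℤ) ≤ L * 2 ^ L := by positivity
  have b1 : cc L (T^[u] n) < 3 ^ od (u + L) n := by nlinarith
  have b2 : cc L (T^[u] n') < 3 ^ od (u + L) n := by nlinarith
  have hm0 : m = 0 := by
    have hP : (0 : ℤ) < 3 ^ od (u + L) n := by positivity
    by_contra hne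
    rcases lt_or_gt_of_ne hne with hlt | hgt
    · have : 3 ^ od (u + L) n * m ≤ 3 ^ od (u + L) n * (-1) := mul_le_mul_of_nonneg_left (by omega) hP.le
      linarith
    · have : 3 ^ od (u + L) n * 1 ≤ 3 ^ od (u + L) n * m := mul_le_mul_of_nonneg_left (by omega) hP.le
      linarith
  rw [hm, hm0]; ring

end Pool.Agent.Helper3.ND
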