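import Pool.Agent.Helper3.ND.Bad
import Pool.Agent.Helper3.ND.Count

/-! Descent through the scales `2 ^ k, …, 2 ^ J`. -/

namespace Pool.Agent.Helper3.ND

open Classical in
/-- integers `|n| ≤ 2 ^ k` whose first passage location below `2 ^ i` is bad -/
noncomputable def Bad (k i tm : ℕ) : Finset ℤ :=
  (Finset.Icc (-(2 ^ k : ℤ)) (2 ^ k)).filter (fun n => ∃ t ≤ tm, FP (2 ^ i) t n ∧ T^[t] n ∈ E i)

theorem T_ge {n : ℤ} : |n| ≤ 2 * |T n| := by
  have h7 : |2 * T n| = 2 * |T n| := by rw [abs_mul, abs_two]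
  rw [← h7]
  rcases par_cases n with h | h
  · rw [T_even h]
  · rw [T_odd h]
    rcases abs_cases n with h1 | h1 <;> rcases abs_cases (3 * n + 1) with h2 | h2 <;> omega

theorem card_Bad {k i tm : ℕ} (hik : i ≤ k) (htm : tm ≤ 2 ^ i) :
    (Bad k i tm).card * 2 ^ i ≤ (E i).card * (13 * (tm + 1) ^ 2 * 2 ^ k) := by
  classical
  have hy : (0 : ℤ) < 2 ^ i := by positivity
  have htm' : (tm : ℤ) ≤ 2 ^ i := by exact_mod_cast htm
  let E' := (E i).filter (fun b => (2 : ℤ) ^ i ≤ 2 * |b|)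
  have hsub : Bad k i tm ⊆ E i ∪ E'.biUnion (fun b => SB (2 ^ k) (2 ^ i) tm b) := by
    intro n hn
    simp only [Bad, Finset.mem_filter] at hn
    obtain ⟨hX, t, ht, hfp, hb⟩ := hn
    rw [Finset.mem_union]
    rcases Nat.eq_zero_or_pos t with h0 | h0
    · left
      subst h0
      simpa using hb
    · right
      rw [Finset.mem_biUnion]
      refine ⟨T^[t] n, ?_, ?_⟩
      · rw [Finset.mem_filter]
        refine ⟨hb, ?_⟩
        obtain ⟨s, rfl⟩ := Nat.exists_eq_succ_of_ne_zero h0.ne'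
        have h1 := hfp.1 s (by omega)
        rw [Nat.succ_eq_add_one, Function.iterate_succ_apply']
        have h2 := T_ge (n := T^[s] n)
        linarith
      · simp only [SB, Finset.mem_filter]
        refine ⟨?_, t, ht, hfp, rfl⟩
        push_cast
        exact hX
  have hE' : E'.card ≤ (E i).card := Finset.card_filter_le _ _
  have h1 : (Bad k i tm).card ≤ (E i).card + ∑ b ∈ E', (SB (2 ^ k) (2 ^ i) tm b).card :=
    le_trans (Finset.card_le_card hsub) (le_trans (Finset.card_union_le _ _)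
      (Nat.add_le_add_left Finset.card_biUnion_le _))
  have h2 : ∀ b ∈ E', (SB (2 ^ k) (2 ^ i) tm b).card * 2 ^ i ≤ 12 * (tm + 1) ^ 2 * 2 ^ k := by
    intro b hb
    rw [Finset.mem_filter] at hb
    have hb0 : b ≠ 0 := by
      rintro rfl
      have := hb.2
      simp at this
      linarith
    have h3 := card_SB (X := 2 ^ k) hy htm' hb0
    have h4 : 2 ^ i ≤ 2 * b.natAbs := by
      have := hb.2
      rw [← Int.natCast_natAbs] at this
      exact_mod_cast this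
    calc (SB (2 ^ k) (2 ^ i) tm b).card * 2 ^ i ≤ (SB (2 ^ k) (2 ^ i) tm b).card * (2 * b.natAbs) := by gcongr
      _ = 2 * ((SB (2 ^ k) (2 ^ i) tm b).card * b.natAbs) := by ring
      _ ≤ 2 * (6 * (tm + 1) ^ 2 * 2 ^ k) := by gcongr
      _ = _ := by ring
  have h5 : 2 ^ i ≤ (tm + 1) ^ 2 * 2 ^ k := by
    calc 2 ^ i ≤ 2 ^ k := Nat.pow_le_pow_right (by norm_num) hik
      _ ≤ _ := Nat.le_mul_of_pos_left _ (by positivity)
  calc (Bad k i tm).card * 2 ^ i
      ≤ ((E i).card + ∑ b ∈ E', (SB (2 ^ k) (2 ^ i) tm b).card) * 2 ^ i := by gcongr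
    _ = (E i).card * 2 ^ i + ∑ b ∈ E', (SB (2 ^ k) (2 ^ i) tm b).card * 2 ^ i := by
        rw [add_mul, Finset.sum_mul]
    _ ≤ (E i).card * ((tm + 1) ^ 2 * 2 ^ k) + ∑ b ∈ E', 12 * (tm + 1) ^ 2 * 2 ^ k := by
        exact Nat.add_le_add (Nat.mul_le_mul_left _ h5) (Finset.sum_le_sum h2)
    _ = (E i).card * ((tm + 1) ^ 2 * 2 ^ k) + E'.card * (12 * (tm + 1) ^ 2 * 2 ^ k) := by
        rw [Finset.sum_const, smul_eq_mul]
    _ ≤ (E i).card * ((tm + 1) ^ 2 * 2 ^ k) + (E i).card * (12 * (tm + 1) ^ 2 * 2 ^ k) := by gcongr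
    _ = _ := by ring

theorem pow_ineq (q : ℕ) (hq : 3 ≤ q) : 256 * 243 * (243 ^ 201) ^ q ≤ (256 ^ 200) ^ q := by
  induction q, hq using Nat.le_induction with
  | base => norm_num
  | succ q hq ih =>
    rw [pow_succ, pow_succ]
    calc 256 * 243 * ((243 ^ 201) ^ q * 243 ^ 201) = (256 * 243 * (243 ^ 201) ^ q) * 243 ^ 201 := by ring
      _ ≤ (256 ^ 200) ^ q * 256 ^ 200 := Nat.mul_le_mul ih (by norm_num)

theorem pow_ineq' {j i : ℕ} (hj : 600 ≤ j) (hi : i ≤ j + j / 200 + 1) : 256 * 243 ^ i ≤ 256 ^ j := by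
  have h1 := Nat.div_add_mod j 200
  obtain ⟨q, hq⟩ : ∃ q, q = j / 200 := ⟨_, rfl⟩
  obtain ⟨r, hr⟩ : ∃ r, r = j % 200 := ⟨_, rfl⟩
  rw [← hq, ← hr] at h1
  rw [← hq] at hi
  have hq3 : 3 ≤ q := by omega
  have h2 : i ≤ 201 * q + 1 + r := by omega
  calc 256 * 243 ^ i ≤ 256 * 243 ^ (201 * q + 1 + r) := by
        gcongr; norm_num
    _ = (256 * 243 * (243 ^ 201) ^ q) * 243 ^ r := by rw [pow_add, pow_add, pow_mul]; ring
    _ ≤ (256 ^ 200) ^ q * 256 ^ r := Nat.mul_le_mul (pow_ineq q hq3) (Nat.pow_le_pow_left (by norm_num) r)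
    _ = 256 ^ j := by rw [← pow_mul, ← pow_add, h1]

theorem reach {k J : ℕ} (hJ : 600 ≤ J) {n : ℤ} (hn : |n| ≤ 2 ^ k)
    (hgood : ∀ i, J ≤ i → i ≤ k → n ∉ Bad k i (202 * k)) :
    ∀ m j : ℕ, k - j = m → J ≤ j → j ≤ k → ∃ t ≤ 201 * (k - j) + k, |T^[t] n| ≤ 2 ^ j := by
  classical
  intro m
  induction m using Nat.strong_induction_on with
  | _ m ih =>
    intro j hm hJj hjk
    rcases Nat.lt_or_ge j k with hlt | hge
    · obtain ⟨d, hd⟩ : ∃ d, d = j / 200 + 1 := ⟨_, rfl⟩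
      obtain ⟨i, hi⟩ : ∃ i, i = min (j + d) k := ⟨_, rfl⟩
      have hji : j < i := by omega
      have hik : i ≤ k := by omega
      obtain ⟨t, ht, hTt⟩ := ih (k - i) (by omega) i rfl (by omega) hik
      have hex : ∃ t, |T^[t] n| ≤ 2 ^ i := ⟨t, hTt⟩
      obtain ⟨τ, hτ⟩ : ∃ τ, τ = Nat.find hex := ⟨_, rfl⟩
      have hτt : τ ≤ t := by rw [hτ]; exact Nat.find_min' hex hTt
      have hfp : FP (2 ^ i) τ n := by
        refine ⟨fun s hs => ?_, ?_⟩
        · rw [hτ] at hs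
          exact not_le.mp (Nat.find_min hex hs)
        · rw [hτ]; exact Nat.find_spec hex
      have hnb := hgood i (by omega) hik
      have hod : 8 * od i (T^[τ] n) ≤ 5 * i := by
        by_contra hc
        push Not at hc
        apply hnb
        simp only [Bad, Finset.mem_filter]
        refine ⟨Finset.mem_Icc.mpr (abs_le.mp hn), τ, by omega, hfp, ?_⟩
        simp only [E, Finset.mem_filter]
        exact ⟨Finset.mem_Icc.mpr (abs_le.mp hfp.2), hc⟩
      have hdesc := descent hfp.2 hod (j := j) (pow_ineq' (by omega) (by omega))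
      refine ⟨i + τ, ?_, by rw [Function.iterate_add_apply]; exact hdesc⟩
      rcases Nat.lt_or_ge k (j + d) with h1 | h1
      · have hik' : i = k := by omega
        have hτ0 : τ = 0 := by
          apply FP.unique hfp (t := 0)
          refine ⟨fun s hs => absurd hs (by omega), ?_⟩
          rw [hik']; simpa using hn
        omega
      · omega
    · refine ⟨0, by omega, ?_⟩
      have : j = k := by omega
      rw [this]; simpa using hn

open Classical in
/-- integers `|n| ≤ 2 ^ k` whose orbit stays above `2 ^ J` for `202 k` steps -/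
noncomputable def Up (k J : ℕ) : Finset ℤ :=
  (Finset.Icc (-(2 ^ k : ℤ)) (2 ^ k)).filter (fun n => ∀ t ≤ 202 * k, (2 : ℤ) ^ J < |T^[t] n|)

theorem card_Up_le (k J : ℕ) : ((Up k J).card : ℝ) ≤ 3 * 2 ^ k := by
  classical
  have h1 : (Up k J).card ≤ (Finset.Icc (-(2 ^ k : ℤ)) (2 ^ k)).card := Finset.card_filter_le _ _
  rw [Int.card_Icc] at h1
  have h2 : ((2 : ℤ) ^ k + 1 - -(2 ^ k)).toNat = 2 * 2 ^ k + 1 := by
    have : ((2 : ℤ) ^ k + 1 - -(2 ^ k)) = ((2 * 2 ^ k + 1 : ℕ) : ℤ) := by push_cast; ring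
    rw [this, Int.toNat_natCast]
  rw [h2] at h1
  have h3 : 1 ≤ 2 ^ k := Nat.one_le_two_pow
  have h4 : (Up k J).card ≤ 3 * 2 ^ k := by omega
  exact_mod_cast h4

theorem eta_lt_one : eta < 1 := lt_of_le_of_lt eta_le (by norm_num)

theorem sum_eta (J k : ℕ) : ∑ i ∈ Finset.Icc J k, eta ^ i ≤ 33 * eta ^ J := by
  have h1 : ∀ m : ℕ, ∑ i ∈ Finset.Ico J (J + m), eta ^ i ≤ 33 * eta ^ J * (1 - eta ^ m) := by
    intro m
    induction m with
    | zero => simp
    | succ m ih =>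
      rw [← add_assoc, Finset.sum_Ico_succ_top (by omega)]
      have h2 : eta ^ (J + m) = eta ^ J * eta ^ m := pow_add _ _ _
      have h3 := eta_le
      have h4 : 0 < eta ^ J := pow_pos eta_pos _
      have h5 : 0 < eta ^ m := pow_pos eta_pos _
      rw [h2, pow_succ]
      have h6 : 0 ≤ eta ^ J * eta ^ m * (33 * (1 - eta) - 1) := by
        apply mul_nonneg (by positivity)
        linarith
      nlinarith
  have h2 : Finset.Icc J k ⊆ Finset.Ico J (J + (k + 1)) := by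
    intro i hi
    rw [Finset.mem_Icc] at hi
    rw [Finset.mem_Ico]
    omega
  calc ∑ i ∈ Finset.Icc J k, eta ^ i ≤ ∑ i ∈ Finset.Ico J (J + (k + 1)), eta ^ i :=
        Finset.sum_le_sum_of_subset_of_nonneg h2 (fun _ _ _ => (pow_pos eta_pos _).le)
    _ ≤ 33 * eta ^ J * (1 - eta ^ (k + 1)) := h1 _
    _ ≤ 33 * eta ^ J := by
        have h4 : 0 < eta ^ J := pow_pos eta_pos _
        have h5 : 0 < eta ^ (k + 1) := pow_pos eta_pos _
        nlinarith

theorem card_Up_main {k J : ℕ} (hk : 1 ≤ k) (hJ : 600 ≤ J) (hJk : J ≤ k) (htm : 202 * k ≤ 2 ^ J) :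
    ((Up k J).card : ℝ) ≤ 10 ^ 9 * (k : ℝ) ^ 2 * 2 ^ k * eta ^ J := by
  classical
  have hsub : Up k J ⊆ (Finset.Icc J k).biUnion (fun i => Bad k i (202 * k)) := by
    intro n hn
    simp only [Up, Finset.mem_filter] at hn
    by_contra hc
    rw [Finset.mem_biUnion] at hc
    push Not at hc
    obtain ⟨t, ht2, ht⟩ := reach hJ (abs_le.mpr (Finset.mem_Icc.mp hn.1))
      (fun i h1 h2 => hc i (Finset.mem_Icc.mpr ⟨h1, h2⟩)) _ J rfl le_rfl hJk
    exact absurd ht (not_le.mpr (hn.2 t (by omega)))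
  have h1 : ((Up k J).card : ℝ) ≤ ∑ i ∈ Finset.Icc J k, ((Bad k i (202 * k)).card : ℝ) := by
    have := le_trans (Finset.card_le_card hsub) Finset.card_biUnion_le
    exact_mod_cast this
  have h2 : ∀ i ∈ Finset.Icc J k, ((Bad k i (202 * k)).card : ℝ) ≤
      39 * (203 * (k : ℝ)) ^ 2 * 2 ^ k * eta ^ i := by
    intro i hi
    rw [Finset.mem_Icc] at hi
    have h3 := card_Bad (k := k) (i := i) (tm := 202 * k) hi.2
      (le_trans htm (Nat.pow_le_pow_right (by norm_num) hi.1))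
    have h4 : ((Bad k i (202 * k)).card : ℝ) * 2 ^ i ≤
        ((E i).card : ℝ) * (13 * (202 * (k : ℝ) + 1) ^ 2 * 2 ^ k) := by exact_mod_cast h3
    have h5 := card_E i
    have hk' : (1 : ℝ) ≤ k := by exact_mod_cast hk
    have h6 : (202 * (k : ℝ) + 1) ^ 2 ≤ (203 * (k : ℝ)) ^ 2 := by
      apply pow_le_pow_left₀ (by positivity)
      linarith
    have hp : (0 : ℝ) < 2 ^ i := by positivity
    have hη : 0 < eta ^ i := pow_pos eta_pos _
    have h7 : ((Bad k i (202 * k)).card : ℝ) * 2 ^ i ≤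
        (39 * (203 * (k : ℝ)) ^ 2 * 2 ^ k * eta ^ i) * 2 ^ i := by
      calc ((Bad k i (202 * k)).card : ℝ) * 2 ^ i ≤
          ((E i).card : ℝ) * (13 * (202 * (k : ℝ) + 1) ^ 2 * 2 ^ k) := h4
        _ ≤ (3 * (2 ^ i * eta ^ i)) * (13 * (203 * (k : ℝ)) ^ 2 * 2 ^ k) := by gcongr
        _ = _ := by ring
    exact le_of_mul_le_mul_right h7 hp
  calc ((Up k J).card : ℝ) ≤ ∑ i ∈ Finset.Icc J k, ((Bad k i (202 * k)).card : ℝ) := h1
    _ ≤ ∑ i ∈ Finset.Icc J k, 39 * (203 * (k : ℝ)) ^ 2 * 2 ^ k * eta ^ i := Finset.sum_le_sum h2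
    _ = 39 * (203 * (k : ℝ)) ^ 2 * 2 ^ k * ∑ i ∈ Finset.Icc J k, eta ^ i := by rw [Finset.mul_sum]
    _ ≤ 39 * (203 * (k : ℝ)) ^ 2 * 2 ^ k * (33 * eta ^ J) := by gcongr; exact sum_eta J k
    _ = 53035983 * ((k : ℝ) ^ 2 * 2 ^ k * eta ^ J) := by ring
    _ ≤ 10 ^ 9 * ((k : ℝ) ^ 2 * 2 ^ k * eta ^ J) := by
        have : 0 < (k : ℝ) ^ 2 * 2 ^ k * eta ^ J := by
          have := pow_pos eta_pos J
          positivity
        nlinarith
    _ = _ := by ring

theorem half_le_eta : 1 / 2 ≤ eta := by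
  rw [← eta_pow]
  exact pow_le_of_le_one eta_pos.le eta_lt_one.le (by norm_num)

theorem card_Up (k J : ℕ) (hk : 1 ≤ k) :
    ((Up k J).card : ℝ) ≤ 10 ^ 9 * (k : ℝ) ^ 2 * 2 ^ k * eta ^ J := by
  classical
  have hη : 0 < eta ^ J := pow_pos eta_pos _
  have hk' : (1 : ℝ) ≤ k := by exact_mod_cast hk
  have hk2 : (1 : ℝ) ≤ (k : ℝ) ^ 2 := one_le_pow₀ hk'
  have hp : (0 : ℝ) < 2 ^ k := by positivity
  rcases Nat.lt_or_ge J 600 with h1 | h1
  · have h2 : (1 / 2 : ℝ) ^ 28 ≤ eta ^ J := by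
      rw [← eta_pow, ← pow_mul]
      exact pow_le_pow_of_le_one eta_pos.le eta_lt_one.le (by omega)
    calc ((Up k J).card : ℝ) ≤ 3 * 2 ^ k := card_Up_le k J
      _ ≤ (10 ^ 9 * (1 / 2) ^ 28) * 2 ^ k := by
          apply mul_le_mul_of_nonneg_right _ hp.le
          norm_num
      _ ≤ (10 ^ 9 * eta ^ J) * 2 ^ k := by gcongr
      _ = (10 ^ 9 * 1 * eta ^ J) * 2 ^ k := by ring
      _ ≤ (10 ^ 9 * (k : ℝ) ^ 2 * eta ^ J) * 2 ^ k := by gcongr
      _ = _ := by ring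
  · rcases Nat.lt_or_ge k J with h2 | h2
    · have h3 : Up k J = ∅ := by
        rw [Finset.eq_empty_iff_forall_notMem]
        intro n hn
        simp only [Up, Finset.mem_filter, Finset.mem_Icc] at hn
        have h4 := hn.2 0 (by omega)
        have h5 : |n| ≤ 2 ^ k := abs_le.mpr hn.1
        have h6 : (2 : ℤ) ^ k < 2 ^ J := pow_lt_pow_right₀ (by norm_num) h2
        simp at h4
        linarith
      rw [h3]
      simp only [Finset.card_empty, Nat.cast_zero]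
      positivity
    · rcases Nat.lt_or_ge (2 ^ J) (202 * k) with h3 | h3
      · have h4 : (1 / 2 : ℝ) ^ J ≤ eta ^ J := pow_le_pow_left₀ (by norm_num) half_le_eta J
        have h5 : (2 : ℝ) ^ J ≤ 202 * k := by exact_mod_cast h3.le
        have h6 : 1 / (202 * (k : ℝ)) ≤ eta ^ J := by
          refine le_trans ?_ h4
          rw [one_div_pow]
          exact one_div_le_one_div_of_le (by positivity) h5
        have h7 : 1 / 202 ≤ (k : ℝ) ^ 2 * eta ^ J := by
          calc (1 / 202 : ℝ) ≤ k / 202 := by linarith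
            _ = (k : ℝ) ^ 2 * (1 / (202 * k)) := by field_simp
            _ ≤ _ := by gcongr
        calc ((Up k J).card : ℝ) ≤ 3 * 2 ^ k := card_Up_le k J
          _ ≤ (10 ^ 9 * (1 / 202)) * 2 ^ k := by
              apply mul_le_mul_of_nonneg_right _ hp.le
              norm_num
          _ ≤ (10 ^ 9 * ((k : ℝ) ^ 2 * eta ^ J)) * 2 ^ k := by gcongr
          _ = _ := by ring
      · exact card_Up_main hk h1 h2 h3

end Pool.Agent.Helper3.ND
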